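import Pool.Agent.Helper83.Cyc.Seq

set_option autoImplicit false

open Filter

namespace Pool.Agent.Results.MP_bd7042_lc.CharacteristicOnly

/-- The family of all cyclic codes over `F` is good: there are nonzero cyclic codes over `F`
whose lengths tend to infinity and whose rates and relative minimum distances converge to
positive limits. -/
def CyclicGood (F : Type) [Field F] [DecidableEq F] : Prop :=
  ∃ (n : ℕ → ℕ) (C : ∀ i, Submodule F (Fin (n i) → F)) (d : ℕ → ℕ) (R δ : ℝ),
    (∀ i, ∀ c ∈ C i, (fun j => c (finRotate (n i) j)) ∈ C i) ∧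
    (∀ i, (∃ c ∈ C i, c ≠ 0 ∧ hammingNorm c = d i) ∧
      ∀ c ∈ C i, c ≠ 0 → d i ≤ hammingNorm c) ∧
    Tendsto n atTop atTop ∧ 0 < R ∧ 0 < δ ∧
    Tendsto (fun i => (Module.finrank F (C i) : ℝ) / (n i : ℝ)) atTop (nhds R) ∧
    Tendsto (fun i => (d i : ℝ) / (n i : ℝ)) atTop (nhds δ)

/-- The same for translation invariant linear codes whose coordinates are indexed by the abelian
groups `Z_n × A`, where `n` tends to infinity and `A` is any finite abelian group in which the
order of every element divides `p ^ s * e` for some `s`; here `e` is fixed. -/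
def AbelianGood (F : Type) [Field F] [DecidableEq F] (p e : ℕ) : Prop :=
  ∃ (n : ℕ → ℕ) (A : ℕ → Type) (_ : ∀ i, AddCommGroup (A i)) (_ : ∀ i, Fintype (A i))
    (C : ∀ i, Submodule F (Fin (n i) × A i → F)) (d : ℕ → ℕ) (R δ : ℝ),
    (∀ i, ∀ a : A i, ∃ s : ℕ, (p ^ s * e) • a = 0) ∧
    (∀ i, ∀ c ∈ C i, (fun x => c (finRotate (n i) x.1, x.2)) ∈ C i) ∧
    (∀ i, ∀ c ∈ C i, ∀ a : A i, (fun x => c (x.1, a + x.2)) ∈ C i) ∧
    (∀ i, (∃ c ∈ C i, c ≠ 0 ∧ hammingNorm c = d i) ∧
      ∀ c ∈ C i, c ≠ 0 → d i ≤ hammingNorm c) ∧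
    Tendsto n atTop atTop ∧ 0 < R ∧ 0 < δ ∧
    Tendsto (fun i => (Module.finrank F (C i) : ℝ) / ((n i : ℝ) * (Fintype.card (A i) : ℝ)))
      atTop (nhds R) ∧
    Tendsto (fun i => (d i : ℝ) / ((n i : ℝ) * (Fintype.card (A i) : ℝ))) atTop (nhds δ)

open Pool.Agent.Helper83.Cyc

lemma exists_min {F : Type} [Field F] [DecidableEq F] {n : ℕ} (C : Submodule F (Fin n → F))
    (h : 0 < Module.finrank F C) :
    ∃ d : ℕ, (∃ c ∈ C, c ≠ 0 ∧ hammingNorm c = d) ∧ ∀ c ∈ C, c ≠ 0 → d ≤ hammingNorm c := by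
  let S : Set ℕ := {w | ∃ c ∈ C, c ≠ 0 ∧ hammingNorm c = w}
  have hne : C ≠ ⊥ := by
    rintro rfl
    rw [finrank_bot] at h
    exact lt_irrefl _ h
  obtain ⟨c, hc, hc0⟩ := (Submodule.ne_bot_iff C).1 hne
  have hS : S.Nonempty := ⟨hammingNorm c, c, hc, hc0, rfl⟩
  refine ⟨sInf S, Nat.sInf_mem hS, fun c hc hc0 => Nat.sInf_le ⟨c, hc, hc0, rfl⟩⟩

lemma goodE_of_good {F : Type} [Field F] [DecidableEq F] (h : CyclicGood F) : GoodE F := by
  obtain ⟨n, C, d, R, δ, hC, hd, hn, hR, hδ, hlR, hlδ⟩ := h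
  have hε : 0 < min R δ / 2 := by
    have := lt_min hR hδ
    linarith
  have hεR : min R δ / 2 < R := by
    have h1 := lt_min hR hδ
    have h2 := min_le_left R δ
    linarith
  have hεδ : min R δ / 2 < δ := by
    have h1 := lt_min hR hδ
    have h2 := min_le_right R δ
    linarith
  refine ⟨min R δ / 2, hε, fun N0 => ?_⟩
  have e1 := hlR.eventually (lt_mem_nhds hεR)
  have e2 := hlδ.eventually (lt_mem_nhds hεδ)
  have e3 := hn.eventually (eventually_ge_atTop (N0 + 1))
  obtain ⟨i, h1, h2, h3⟩ := (e1.and (e2.and e3)).exists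
  have hpos : 0 < n i := by omega
  have hposR : (0 : ℝ) < n i := by exact_mod_cast hpos
  refine ⟨n i, by omega, hpos, cyc_to_P (n i) hpos (C i) (hC i) _ _ ?_ ?_⟩
  · exact ((lt_div_iff₀ hposR).1 h1).le
  · intro c hc hc0
    refine le_trans ((lt_div_iff₀ hposR).1 h2).le ?_
    exact_mod_cast (hd i).2 c hc hc0

lemma good_of_goodE {F : Type} [Field F] [DecidableEq F] (h : GoodE F) : CyclicGood F := by
  obtain ⟨ε, hε, h⟩ := h
  choose n hn hn0 hP using h
  have h1 : ∀ i, ∃ C : Submodule F (Fin (n i) → F), (∀ c ∈ C, (fun j => c (finRotate (n i) j)) ∈ C) ∧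
      ε * (n i : ℝ) ≤ (Module.finrank F C : ℝ) ∧
      ∀ c ∈ C, c ≠ 0 → ε * (n i : ℝ) ≤ (hammingNorm c : ℝ) :=
    fun i => P_to_cyc (n i) (hn0 i) ε ε (hP i)
  choose C hC1 hC2 hC3 using h1
  have hpos : ∀ i, (0 : ℝ) < n i := fun i => by exact_mod_cast hn0 i
  have hfr : ∀ i, 0 < Module.finrank F (C i) := by
    intro i
    have h2 : (0 : ℝ) < (Module.finrank F (C i) : ℝ) :=
      lt_of_lt_of_le (mul_pos hε (hpos i)) (hC2 i)
    exact_mod_cast h2
  choose d hd using fun i => exists_min (C i) (hfr i)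
  have hr : ∀ i, ε ≤ (Module.finrank F (C i) : ℝ) / (n i : ℝ) ∧
      (Module.finrank F (C i) : ℝ) / (n i : ℝ) ≤ 1 := by
    intro i
    constructor
    · exact (le_div_iff₀ (hpos i)).2 (hC2 i)
    · rw [div_le_one (hpos i)]
      have := Submodule.finrank_le (C i)
      simp only [Module.finrank_fintype_fun_eq_card, Fintype.card_fin] at this
      exact_mod_cast this
  have hs : ∀ i, ε ≤ (d i : ℝ) / (n i : ℝ) ∧ (d i : ℝ) / (n i : ℝ) ≤ 1 := by
    intro i
    obtain ⟨c, hc, hc0, hcd⟩ := (hd i).1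
    constructor
    · rw [le_div_iff₀ (hpos i), ← hcd]
      exact hC3 i c hc hc0
    · rw [div_le_one (hpos i), ← hcd]
      have : hammingNorm c ≤ n i := by
        have := hammingNorm_le_card_fintype (x := c)
        simpa using this
      exact_mod_cast this
  obtain ⟨φ, R, δ, hφ, hR, hδ, hlR, hlδ⟩ := extract ε _ _ hr hs
  have hntop : Tendsto n atTop atTop := tendsto_atTop_mono hn tendsto_id
  exact ⟨fun i => n (φ i), fun i => C (φ i), fun i => d (φ i), R, δ, fun i => hC1 (φ i),
    fun i => hd (φ i), hntop.comp hφ.tendsto_atTop, lt_of_lt_of_le hε hR, lt_of_lt_of_le hε hδ,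
    hlR, hlδ⟩

lemma abelian_of_cyclic {F : Type} [Field F] [DecidableEq F] (p : ℕ) (h : CyclicGood F) :
    AbelianGood F p 1 := by
  obtain ⟨n, C, d, R, δ, hC, hd, hn, hR, hδ, hlR, hlδ⟩ := h
  let L : ∀ i, (Fin (n i) × PUnit → F) ≃ₗ[F] (Fin (n i) → F) := fun i =>
    LinearEquiv.funCongrLeft F F (Equiv.prodPUnit (Fin (n i))).symm
  have hL : ∀ i (f : Fin (n i) × PUnit → F) x, L i f x = f (x, PUnit.unit) := fun i f x => rfl
  have hham : ∀ i (f : Fin (n i) × PUnit → F), hammingNorm (L i f) = hammingNorm f := by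
    intro i f
    rw [← wt_eq_hammingNorm, ← wt_eq_hammingNorm]
    exact wt_comp_equiv (Equiv.prodPUnit (Fin (n i))).symm f
  refine ⟨n, fun _ => PUnit, fun _ => inferInstance, fun _ => inferInstance,
    fun i => (C i).comap (L i : (Fin (n i) × PUnit → F) →ₗ[F] (Fin (n i) → F)), d, R, δ,
    ?_, ?_, ?_, ?_, hn, hR, hδ, ?_, ?_⟩
  · intro i a
    exact ⟨0, rfl⟩
  · intro i c hc
    exact hC i _ hc
  · intro i c hc a
    exact hc
  · intro i
    obtain ⟨⟨c, hc, hc0, hcd⟩, h2⟩ := hd i
    constructor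
    · refine ⟨(L i).symm c, ?_, ?_, ?_⟩
      · rw [Submodule.mem_comap]
        show L i ((L i).symm c) ∈ C i
        rw [LinearEquiv.apply_symm_apply]
        exact hc
      · intro h
        exact hc0 (by simpa using h)
      · rw [← hham, LinearEquiv.apply_symm_apply]
        exact hcd
    · intro c hc hc0
      rw [← hham]
      refine h2 (L i c) hc ?_
      intro h
      exact hc0 (by simpa using h)
  · have h1 : ∀ i, Module.finrank F ((C i).comap
        (L i : (Fin (n i) × PUnit → F) →ₗ[F] (Fin (n i) → F))) = Module.finrank F (C i) := by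
      intro i
      have h := LinearEquiv.finrank_eq ((L i).symm.submoduleMap (C i))
      rw [h, Submodule.comap_equiv_eq_map_symm]
    simp only [h1, Fintype.card_punit, Nat.cast_one, mul_one]
    exact hlR
  · simp only [Fintype.card_punit, Nat.cast_one, mul_one]
    exact hlδ

lemma goodE_of_abelianGood (p : ℕ) [hp : Fact p.Prime] (F : Type) [Field F] [Fintype F]
    [DecidableEq F] [CharP F p] (e : ℕ) (he : 0 < e) (h : AbelianGood F p e) :
    GoodE (ZMod p) := by
  obtain ⟨n, A, i1, i2, C, d, R, δ, hA, hC, hC', hd, hn, hR, hδ, hlR, hlδ⟩ := h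
  have hε : 0 < min R δ / 2 := by
    have := lt_min hR hδ
    linarith
  have hεR : min R δ / 2 < R := by
    have h1 := lt_min hR hδ
    have h2 := min_le_left R δ
    linarith
  have hεδ : min R δ / 2 < δ := by
    have h1 := lt_min hR hδ
    have h2 := min_le_right R δ
    linarith
  let _ : Algebra (ZMod p) F := ZMod.algebra F p
  refine goodE_of_abelian p F e he (min R δ / 2) hε fun N0 => ?_
  have e1 := hlR.eventually (lt_mem_nhds hεR)
  have e2 := hlδ.eventually (lt_mem_nhds hεδ)
  have e3 := hn.eventually (eventually_ge_atTop (N0 + 1))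
  obtain ⟨i, h1, h2, h3⟩ := (e1.and (e2.and e3)).exists
  have hpos : 0 < n i := by omega
  have hposA : 0 < Fintype.card (A i) := Fintype.card_pos_iff.2 ⟨0⟩
  have hposR : (0 : ℝ) < (n i : ℝ) * (Fintype.card (A i) : ℝ) := by
    have h4 : (0 : ℝ) < n i := by exact_mod_cast hpos
    have h5 : (0 : ℝ) < Fintype.card (A i) := by exact_mod_cast hposA
    exact mul_pos h4 h5
  refine ⟨n i, by omega, hpos, A i, i1 i, inferInstance, hA i,
    ab_to_P (n i) hpos (A i) (C i) (hC i) (hC' i) _ _ ?_ ?_⟩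
  · exact ((lt_div_iff₀ hposR).1 h1).le
  · intro c hc hc0
    refine le_trans ((lt_div_iff₀ hposR).1 h2).le ?_
    exact_mod_cast (hd i).2 c hc hc0

/-- **Goodness of cyclic codes depends only on the characteristic.** For a prime `p` the
following are equivalent: the cyclic codes over the prime field are good; the cyclic codes over
some finite field of characteristic `p` are good; the cyclic codes over every finite field of
characteristic `p` are good; over some finite field of characteristic `p` there is a good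
sequence of translation invariant codes in the groups `Z_n × A`, with `n` tending to infinity and
the orders of the elements of `A` bounded up to powers of `p`. -/
theorem result (p : ℕ) [Fact p.Prime] :
    List.TFAE [
      CyclicGood (ZMod p),
      ∃ (F : Type) (_ : Field F) (_ : Fintype F) (_ : DecidableEq F), CharP F p ∧ CyclicGood F,
      ∀ (F : Type) [Field F] [Fintype F] [DecidableEq F], CharP F p → CyclicGood F,
      ∃ (F : Type) (_ : Field F) (_ : Fintype F) (_ : DecidableEq F) (e : ℕ),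
        CharP F p ∧ 0 < e ∧ AbelianGood F p e] := by
  tfae_have 1 → 3 := by
    intro h F _ _ _ hF
    exact good_of_goodE (goodE_hom (ZMod.castHom dvd_rfl F) (goodE_of_good h))
  tfae_have 3 → 2 := by
    intro h
    exact ⟨ZMod p, inferInstance, inferInstance, inferInstance, inferInstance, h (ZMod p)
      inferInstance⟩
  tfae_have 2 → 4 := by
    rintro ⟨F, i1, i2, i3, hF, h⟩
    exact ⟨F, i1, i2, i3, 1, hF, Nat.one_pos, abelian_of_cyclic p h⟩
  tfae_have 4 → 1 := by
    rintro ⟨F, i1, i2, i3, e, hF, he, h⟩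
    exact good_of_goodE (goodE_of_abelianGood p F e he h)
  tfae_finish

end Pool.Agent.Results.MP_bd7042_lc.CharacteristicOnly
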