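import Pool.Agent.Helper83.CycSat.Code
import Pool.Agent.Helper83.Cyc.Seq

set_option autoImplicit false

namespace Pool.Agent.Results.MP_bd7042_lc.SaturatedLengths

/-- Saturated lengths: `n` is prime to `q`, and `n` divides `q ^ (2 m) - 1` for every `m > 0` such
that all primes dividing `n` divide `q ^ m - 1`. -/
def Saturated (q n : ℕ) : Prop :=
  n.Coprime q ∧ ∀ m : ℕ, 0 < m → (∀ r : ℕ, r.Prime → r ∣ n → r ∣ q ^ m - 1) →
    n ∣ q ^ (2 * m) - 1

open Pool.Agent.Helper83

lemma hamming_pos {F : Type} [Field F] [DecidableEq F] {n : ℕ} (c : Fin n → F) (hc : c ≠ 0) :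
    0 < hammingNorm c := hammingNorm_pos_iff.2 hc

/-- **Reduction to saturated lengths.** Let `C` be a nonzero cyclic code of length `n`, dimension
`k` and minimum distance `d` over a finite field with `q` elements and characteristic `p`. Then
there are a saturated divisor `n'` of `n` and a nonzero cyclic code of length `n'` whose relative
minimum distance is at least `d / n` and whose dimension `k'` satisfies
`k * d ^ 2 ≤ p * n ^ 2 * k'`. -/
theorem result (F : Type) [Field F] [Fintype F] [DecidableEq F] (p : ℕ) [CharP F p]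
    (n : ℕ) (hn : 0 < n) (C : Submodule F (Fin n → F))
    (hC : ∀ c ∈ C, (fun j => c (finRotate n j)) ∈ C) (d : ℕ)
    (hd : ∃ c ∈ C, c ≠ 0 ∧ hammingNorm c = d) (hd' : ∀ c ∈ C, c ≠ 0 → d ≤ hammingNorm c) :
    ∃ n' : ℕ, 0 < n' ∧ n' ∣ n ∧ Saturated (Fintype.card F) n' ∧
      ∃ C' : Submodule F (Fin n' → F), (∀ c ∈ C', (fun j => c (finRotate n' j)) ∈ C') ∧
        C' ≠ ⊥ ∧ Module.finrank F C * d ^ 2 ≤ p * n ^ 2 * Module.finrank F C' ∧
        ∀ c ∈ C', c ≠ 0 → d * n' ≤ n * hammingNorm c := by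
  have hprime : p.Prime := CharP.char_is_prime F p
  have hfact : Fact p.Prime := ⟨hprime⟩
  obtain ⟨c0, hc0, hc0', hc0d⟩ := hd
  have hdpos : 0 < d := by
    rw [← hc0d]
    exact hamming_pos c0 hc0'
  obtain ⟨k, rfl⟩ : ∃ k, n = k + 1 := ⟨n - 1, by omega⟩
  have hwt : ∀ c : ZMod (k + 1) → F, Cyc.wt c = hammingNorm (c : Fin (k + 1) → F) := fun c =>
    Cyc.wt_eq_hammingNorm (X := Fin (k + 1)) c
  obtain ⟨n', hn', hn'n, hsat, D', h1, h2, h3, h4⟩ := CycSat.reduce p (k + 1) hn
    (C : Submodule F (ZMod (k + 1) → F))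
    (by
      intro c hc
      have h5 := hC c hc
      refine (congrArg (· ∈ C) ?_).mp h5
      funext j
      rw [finRotate_apply]
      rfl)
    (by
      intro h
      have h6 : c0 ∈ (⊥ : Submodule F (ZMod (k + 1) → F)) := by
        rw [← h]
        exact hc0
      exact hc0' ((Submodule.mem_bot F).1 h6))
    d hdpos
    (by
      intro c hc hcne
      rw [hwt]
      exact hd' c hc hcne)
  obtain ⟨k', rfl⟩ : ∃ k', n' = k' + 1 := ⟨n' - 1, by omega⟩
  have hwt' : ∀ c : ZMod (k' + 1) → F, Cyc.wt c = hammingNorm (c : Fin (k' + 1) → F) := fun c =>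
    Cyc.wt_eq_hammingNorm (X := Fin (k' + 1)) c
  refine ⟨k' + 1, hn', hn'n, ?_, (D' : Submodule F (Fin (k' + 1) → F)), ?_, ?_, h3, ?_⟩
  · rw [← Nat.card_eq_fintype_card]
    exact hsat
  · intro c hc
    have h5 := h1 c hc
    refine (congrArg (· ∈ D') ?_).mp h5
    funext j
    rw [finRotate_apply]
    rfl
  · exact h2
  · intro c hc hcne
    have h5 := h4 c hc hcne
    exact le_of_le_of_eq h5 (congrArg (fun t => (k + 1) * t) (hwt' c))

end Pool.Agent.Results.MP_bd7042_lc.SaturatedLengths
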